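import Pool.Agent.Helper96.VF.GoalsL

/-!
# Packet VF-SERA (project VF): the inner sums of the first series
-/

set_option autoImplicit false

namespace Pool.Agent.Helper97.VF

open Pool.Agent.Helper96.VF

theorem mu_zero {a b c d : ℝ} (h0 : 0 < min b d) (h : min b d ≤ max a c) : mu a b c d = 0 := by
  unfold mu
  apply max_eq_left
  have : 1 / max a c ≤ 1 / min b d := one_div_le_one_div_of_le h0 h
  linarith

/-- bounds for `kk`. -/
theorem kk_bounds (b : ℕ) : 2 ^ kk b ≤ 3 ^ b ∧ 3 ^ b < 2 * 2 ^ kk b := by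
  constructor
  · exact Nat.pow_log_le_self 2 (by positivity)
  · have h := Nat.lt_pow_succ_log_self (b := 2) (by norm_num) (3 ^ b)
    rw [pow_succ] at h
    unfold kk
    omega

theorem kk_bounds_real (b : ℕ) :
    (2 : ℝ) ^ kk b ≤ 3 ^ b ∧ (3 : ℝ) ^ b < 2 * 2 ^ kk b := by
  obtain ⟨h1, h2⟩ := kk_bounds b
  constructor
  · exact_mod_cast h1
  · exact_mod_cast h2

theorem kk_succ_lt {b : ℕ} (h : 3 * 3 ^ b < 4 * 2 ^ kk b) : kk (b + 1) = kk b + 1 := by
  obtain ⟨h1, h2⟩ := kk_bounds b
  have e : kk (b + 1) = Nat.log 2 (3 ^ (b + 1)) := rfl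
  rw [e]
  apply Nat.log_eq_of_pow_le_of_lt_pow
  · rw [pow_succ, pow_succ]
    omega
  · rw [pow_succ, pow_succ, pow_succ]
    omega

theorem kk_succ_ge {b : ℕ} (h : 4 * 2 ^ kk b ≤ 3 * 3 ^ b) : kk (b + 1) = kk b + 2 := by
  obtain ⟨h1, h2⟩ := kk_bounds b
  have e : kk (b + 1) = Nat.log 2 (3 ^ (b + 1)) := rfl
  rw [e]
  apply Nat.log_eq_of_pow_le_of_lt_pow
  · rw [pow_add, pow_succ]
    omega
  · rw [pow_succ, pow_succ, pow_add]
    omega

theorem gSERA : SERA := by
  intro b
  obtain ⟨h1, h2⟩ := kk_bounds_real b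
  set K : ℝ := (2 : ℝ) ^ kk b with hK
  set T : ℝ := (3 : ℝ) ^ b with hT
  have hKpos : 0 < K := by positivity
  have hTpos : 0 < T := by positivity
  have hmm : ∀ j : ℕ, mm 2 4 2 3 (j, b) = mu (2 * 4 ^ j) (4 * 4 ^ j) (2 * T) (3 * T) := by
    intro j
    unfold mm
    push_cast
    rfl
  have hT1 : (3 : ℝ) ^ (b + 1) = 3 * T := by
    rw [pow_succ, hT]
    ring
  rcases Nat.even_or_odd (kk b) with hev | hodd
  · -- `kk b` even
    obtain ⟨i, hi⟩ := hev
    have hKi : (4 : ℝ) ^ i = K := by
      rw [hK, hi, ← two_mul, pow_mul]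
      norm_num
    have hmod : kk b % 2 = 0 := by omega
    have hsum : (∑' j : ℕ, mm 2 4 2 3 (j, b)) = mm 2 4 2 3 (i, b) := by
      apply tsum_eq_single
      intro j hj
      rw [hmm]
      rcases Nat.lt_or_gt_of_ne hj with hlt | hgt
      · apply mu_zero
        · positivity
        · have e1 : (4 : ℝ) ^ (j + 1) ≤ 4 ^ i := pow_le_pow_right₀ (by norm_num) hlt
          rw [pow_succ] at e1
          calc min (4 * (4 : ℝ) ^ j) (3 * T) ≤ 4 * 4 ^ j := min_le_left _ _
            _ ≤ 2 * T := by linarith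
            _ ≤ _ := le_max_right _ _
      · apply mu_zero
        · positivity
        · have e1 : (4 : ℝ) ^ (i + 1) ≤ 4 ^ j := pow_le_pow_right₀ (by norm_num) hgt
          rw [pow_succ] at e1
          calc min (4 * (4 : ℝ) ^ j) (3 * T) ≤ 3 * T := min_le_right _ _
            _ ≤ 2 * 4 ^ j := by linarith
            _ ≤ _ := le_max_left _ _
    rw [hsum, hmm, hKi]
    unfold mu R2 R1
    rw [if_pos hmod, ← hK, ← hT, hT1]
    have hmax : max (2 * K) (2 * T) = 2 * T := max_eq_right (by linarith)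
    rw [hmax]
    rcases lt_or_ge (3 * 3 ^ b) (4 * 2 ^ kk b) with hc | hc
    · have hcr : 3 * T < 4 * K := by
        rw [hT, hK]
        exact_mod_cast hc
      rw [kk_succ_lt hc, if_neg (by omega), pow_succ, ← hK, min_eq_right (by linarith)]
      have e3 : 1 / (3 * T) ≤ 1 / (2 * T) :=
        one_div_le_one_div_of_le (by positivity) (by linarith)
      rw [max_eq_right (by linarith)]
      field_simp
      ring
    · have hcr : 4 * K ≤ 3 * T := by
        rw [hT, hK]
        exact_mod_cast hc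
      rw [kk_succ_ge hc, if_pos (by omega), pow_add, ← hK, min_eq_left hcr]
      have e3 : 1 / (4 * K) ≤ 1 / (2 * T) :=
        one_div_le_one_div_of_le (by positivity) (by linarith)
      rw [max_eq_right (by linarith)]
      field_simp
      ring
  · -- `kk b` odd
    obtain ⟨i, hi⟩ := hodd
    have hKi : (4 : ℝ) ^ (i + 1) = 2 * K := by
      rw [hK, hi, pow_succ, pow_succ, pow_mul]
      norm_num
      ring
    have hmod : ¬ kk b % 2 = 0 := by omega
    have hsum : (∑' j : ℕ, mm 2 4 2 3 (j, b)) = mm 2 4 2 3 (i + 1, b) := by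
      apply tsum_eq_single
      intro j hj
      rw [hmm]
      rcases Nat.lt_or_gt_of_ne hj with hlt | hgt
      · apply mu_zero
        · positivity
        · have e1 : (4 : ℝ) ^ (j + 1) ≤ 4 ^ (i + 1) := pow_le_pow_right₀ (by norm_num) hlt
          rw [hKi, pow_succ] at e1
          calc min (4 * (4 : ℝ) ^ j) (3 * T) ≤ 4 * 4 ^ j := min_le_left _ _
            _ ≤ 2 * T := by linarith
            _ ≤ _ := le_max_right _ _
      · apply mu_zero
        · positivity
        · have e1 : (4 : ℝ) ^ (i + 1 + 1) ≤ 4 ^ j := pow_le_pow_right₀ (by norm_num) hgt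
          rw [pow_succ, hKi] at e1
          calc min (4 * (4 : ℝ) ^ j) (3 * T) ≤ 3 * T := min_le_right _ _
            _ ≤ 2 * 4 ^ j := by linarith
            _ ≤ _ := le_max_left _ _
    rw [hsum, hmm, hKi]
    unfold mu R2 R1
    rw [if_neg hmod, ← hK, hT1]
    have hmax : max (2 * (2 * K)) (2 * T) = 4 * K := by
      rw [max_eq_left (by linarith)]
      ring
    rw [hmax, min_eq_right (by linarith)]
    rcases lt_or_ge (3 * 3 ^ b) (4 * 2 ^ kk b) with hc | hc
    · have hcr : 3 * T < 4 * K := by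
        rw [hT, hK]
        exact_mod_cast hc
      rw [kk_succ_lt hc, if_pos (by omega), pow_succ, ← hK]
      have e3 : 1 / (4 * K) ≤ 1 / (3 * T) :=
        one_div_le_one_div_of_le (by positivity) (by linarith)
      rw [max_eq_left (by linarith)]
      field_simp
      ring
    · have hcr : 4 * K ≤ 3 * T := by
        rw [hT, hK]
        exact_mod_cast hc
      rw [kk_succ_ge hc, if_neg (by omega), pow_add, ← hK]
      have e3 : 1 / (3 * T) ≤ 1 / (4 * K) :=
        one_div_le_one_div_of_le (by positivity) (by linarith)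
      rw [max_eq_right (by linarith)]
      field_simp
      ring

end Pool.Agent.Helper97.VF
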