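import Pool.Agent.Helper96.VF.Goals

/-!
# Packet VF-LOW5 (project VF): the lower bound in the model without quotient `5`
-/

set_option autoImplicit false

namespace Pool.Agent.Helper97.VF

open Pool.Agent.Helper96.VF

/-- powers of `b ≥ 2`: if `b^i m ≤ n < b · b^i m` and `b^j m ≤ n < b · b^j m` then `i = j`. -/
theorem pow_unique {b m n i j : ℕ} (hb : 2 ≤ b)
    (h1 : b ^ i * m ≤ n) (h2 : n < b * (b ^ i * m)) (h3 : b ^ j * m ≤ n)
    (h4 : n < b * (b ^ j * m)) : i = j := by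
  have key : ∀ i j : ℕ, b ^ i * m ≤ n → n < b * (b ^ j * m) → i ≤ j := by
    intro i j h1 h2
    by_contra hlt
    push Not at hlt
    have h5 : b ^ (j + 1) ≤ b ^ i := Nat.pow_le_pow_right (by omega) hlt
    have h6 : b ^ (j + 1) * m ≤ b ^ i * m := Nat.mul_le_mul_right _ h5
    have h7 : b ^ (j + 1) * m = b * (b ^ j * m) := by ring
    omega
  exact le_antisymm (key i j h1 h4) (key j i h3 h2)

theorem chi_iff {n m p q : ℕ} (hm : 0 < m) (h : Co n m p q) :
    Chi (n / m) ↔ (2 * p ≤ n ∧ 2 * q ≤ n) := by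
  obtain ⟨⟨j, hp⟩, ⟨b, hq⟩, h1, h2, h3, h4⟩ := h
  have hle : ∀ a : ℕ, a ≤ n / m ↔ a * m ≤ n := fun a => Nat.le_div_iff_mul_le hm
  have hlt : ∀ a : ℕ, n / m < a ↔ n < a * m := fun a => Nat.div_lt_iff_lt_mul hm
  unfold Chi
  constructor
  · rintro ⟨⟨i, hi1, hi2⟩, ⟨c, hc1, hc2⟩⟩
    rw [hle] at hi1 hc1
    rw [hlt] at hi2 hc2
    have e1 : 2 * 4 ^ i * m = 2 * (4 ^ i * m) := by ring
    have e2 : 4 * 4 ^ i * m = 4 * (4 ^ i * m) := by ring
    have e3 : 2 * 3 ^ c * m = 2 * (3 ^ c * m) := by ring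
    have e4 : 3 * 3 ^ c * m = 3 * (3 ^ c * m) := by ring
    rw [e1] at hi1
    rw [e2] at hi2
    rw [e3] at hc1
    rw [e4] at hc2
    have hij : i = j := pow_unique (b := 4) (by norm_num) (by omega) hi2
      (by rw [← hp]; exact h1) (by rw [← hp]; exact h2)
    have hcb : c = b := pow_unique (b := 3) (by norm_num) (by omega) hc2
      (by rw [← hq]; exact h3) (by rw [← hq]; exact h4)
    subst hij hcb
    rw [hp, hq]
    exact ⟨hi1, hc1⟩
  · rintro ⟨h5, h6⟩
    refine ⟨⟨j, ?_, ?_⟩, ⟨b, ?_, ?_⟩⟩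
    · rw [hle]
      have e1 : 2 * 4 ^ j * m = 2 * (4 ^ j * m) := by ring
      rw [e1, ← hp]
      exact h5
    · rw [hlt]
      have e2 : 4 * 4 ^ j * m = 4 * (4 ^ j * m) := by ring
      rw [e2, ← hp]
      exact h2
    · rw [hle]
      have e3 : 2 * 3 ^ b * m = 2 * (3 ^ b * m) := by ring
      rw [e3, ← hq]
      exact h6
    · rw [hlt]
      have e4 : 3 * 3 ^ b * m = 3 * (3 ^ b * m) := by ring
      rw [e4, ← hq]
      exact h4

open Classical in
/-- The extremal set of the model. -/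
noncomputable def A5 (n : ℕ) : Finset ℕ := (Finset.Icc 1 n).filter (fun x => InA5 n x)

theorem inA5_iff (hUNQ : UNQ) {n a b m : ℕ} (hm : Nat.Coprime m 6) :
    InA5 n (2 ^ a * 3 ^ b * m) ↔ El5 n a b m := by
  constructor
  · rintro ⟨a', b', m', hm', hx, hel⟩
    obtain ⟨rfl, rfl, rfl⟩ := hUNQ a b m a' b' m' hm hm' hx
    exact hel
  · intro h
    exact ⟨a, b, m, hm, rfl, h⟩

theorem El5_le {n a b m : ℕ} (h : El5 n a b m) : 2 ^ a * 3 ^ b * m ≤ n := by
  rcases h with ⟨_, _, h⟩ | ⟨_, _, h⟩ <;> omega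

theorem pos_of_cop {a b m : ℕ} (hm : Nat.Coprime m 6) : 1 ≤ 2 ^ a * 3 ^ b * m := by
  have h0 : 0 < m := by
    rcases Nat.eq_zero_or_pos m with h | h
    · subst h
      simp at hm
    · exact h
  exact Nat.one_le_iff_ne_zero.2 (by positivity)

theorem mem_A5 (hUNQ : UNQ) {n a b m : ℕ} (hm : Nat.Coprime m 6) :
    2 ^ a * 3 ^ b * m ∈ A5 n ↔ El5 n a b m := by
  classical
  unfold A5
  rw [Finset.mem_filter, inA5_iff hUNQ hm, Finset.mem_Icc]
  constructor
  · exact fun h => h.2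
  · exact fun h => ⟨⟨pos_of_cop hm, El5_le h⟩, h⟩

theorem class_card (hUNQ : UNQ) (hCE : CE) (hCO : CO) (hGS2 : GS2) (hCRD : CRD) {n m : ℕ}
    (hm : m ∈ Cop n) :
    (((Finset.range (n + 1)) ×ˢ (Finset.range (n + 1))).filter
        fun u => 2 ^ u.1 * 3 ^ u.2 * m ∈ A5 n).card = g (n / m) := by
  classical
  unfold Cop at hm
  rw [Finset.mem_filter, Finset.mem_Icc] at hm
  obtain ⟨⟨hm1, hmn⟩, hcop⟩ := hm
  have hm0 : 0 < m := hm1
  obtain ⟨p, q, hco⟩ := hCRD n m hm0 hmn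
  obtain ⟨hg, hH⟩ := hGS2 n m p q hm0 hco
  have hchi := chi_iff hm0 hco
  have hmul : ∀ u : ℕ × ℕ, 2 ^ u.1 * 3 ^ u.2 * m = m * (2 ^ u.1 * 3 ^ u.2) := fun u => by ring
  by_cases hT : Ty5 n m
  · -- type o
    have heq : (((Finset.range (n + 1)) ×ˢ (Finset.range (n + 1))).filter
        fun u => 2 ^ u.1 * 3 ^ u.2 * m ∈ A5 n) = SO n m := by
      unfold SO
      apply Finset.filter_congr
      intro u _
      rw [mem_A5 hUNQ hcop]
      unfold El5
      rw [hmul u]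
      have e1 : (Even u.1 ↔ ¬ Ty5 n m) ↔ ¬ Even u.1 := by
        simp [hT]
      rw [e1, not_not]
    rw [heq, hCO n m hm0]
    have h2 := hchi.1 hT
    rw [if_pos h2] at hg
    rw [if_pos h2.1, if_pos h2.2] at hH
    have h3 : H (n / m / 2) = H (n / m) := by omega
    rw [hg, h3]
    have h4 : 1 ≤ H (n / m) := by
      have h5 : 1 ≤ n / m := by
        rw [Nat.le_div_iff_mul_le hm0]
        omega
      unfold H
      rw [if_neg (by omega)]
      omega
    omega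
  · have heq : (((Finset.range (n + 1)) ×ˢ (Finset.range (n + 1))).filter
        fun u => 2 ^ u.1 * 3 ^ u.2 * m ∈ A5 n) = SE n m := by
      unfold SE
      apply Finset.filter_congr
      intro u _
      rw [mem_A5 hUNQ hcop]
      unfold El5
      rw [hmul u]
      have e1 : (Even u.1 ↔ ¬ Ty5 n m) ↔ Even u.1 := by
        simp [hT]
      rw [e1]
    rw [heq, hCE n m hm0]
    have h2 : ¬ (2 * p ≤ n ∧ 2 * q ≤ n) := fun h => hT (hchi.2 h)
    rw [if_neg h2] at hg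
    rw [hg, add_zero]

/-- the quotient of a multiple inside the extremal set is determined. -/
theorem mult_det (hUNQ : UNQ) {n a b m k : ℕ} (hm : Nat.Coprime m 6) (hx : El5 n a b m)
    (hk2 : 2 ≤ k) (hk5 : k ≠ 5) (hk : k * (2 ^ a * 3 ^ b * m) ∈ A5 n) :
    (k = 3 ∧ (Even a ↔ ¬ Ty5 n m)) ∨ (k = 2 ∧ ¬ (Even a ↔ ¬ Ty5 n m)) := by
  classical
  have hpos := pos_of_cop (a := a) (b := b) hm
  have hle : k * (2 ^ a * 3 ^ b * m) ≤ n := by
    unfold A5 at hk
    rw [Finset.mem_filter, Finset.mem_Icc] at hk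
    exact hk.1.2
  have h6 : n < 6 * (2 ^ a * 3 ^ b * m) := by
    rcases hx with ⟨_, h, _⟩ | ⟨_, h, _⟩ <;> omega
  have hk6 : k < 6 := by
    by_contra hc
    push Not at hc
    have : 6 * (2 ^ a * 3 ^ b * m) ≤ k * (2 ^ a * 3 ^ b * m) := Nat.mul_le_mul_right _ hc
    omega
  have hcases : k = 2 ∨ k = 3 ∨ k = 4 := by omega
  rcases hcases with rfl | rfl | rfl
  · -- k = 2
    have e : 2 * (2 ^ a * 3 ^ b * m) = 2 ^ (a + 1) * 3 ^ b * m := by ring
    rw [e, mem_A5 hUNQ hm] at hk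
    unfold El5 at hk hx
    rw [← e] at hk
    have hpar : (Even (a + 1) ↔ ¬ Ty5 n m) ↔ ¬ (Even a ↔ ¬ Ty5 n m) := by
      rw [Nat.even_add_one]
      tauto
    rw [hpar, not_not] at hk
    by_cases hP : (Even a ↔ ¬ Ty5 n m)
    · exfalso
      rcases hx with ⟨_, h1, h2⟩ | ⟨h0, _, _⟩
      · rcases hk with ⟨h3, _⟩ | ⟨_, h4, h5⟩
        · exact h3 hP
        · omega
      · exact h0 hP
    · exact Or.inr ⟨rfl, hP⟩
  · -- k = 3
    have e : 3 * (2 ^ a * 3 ^ b * m) = 2 ^ a * 3 ^ (b + 1) * m := by ring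
    rw [e, mem_A5 hUNQ hm] at hk
    unfold El5 at hk hx
    rw [← e] at hk
    by_cases hP : (Even a ↔ ¬ Ty5 n m)
    · exact Or.inl ⟨rfl, hP⟩
    · exfalso
      rcases hx with ⟨h0, _, _⟩ | ⟨_, h1, h2⟩
      · exact hP h0
      · rcases hk with ⟨h3, _⟩ | ⟨_, h4, h5⟩
        · exact hP h3
        · omega
  · -- k = 4
    exfalso
    have e : 4 * (2 ^ a * 3 ^ b * m) = 2 ^ (a + 2) * 3 ^ b * m := by ring
    rw [e, mem_A5 hUNQ hm] at hk
    unfold El5 at hk hx
    rw [← e] at hk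
    have hpar : (Even (a + 2) ↔ ¬ Ty5 n m) ↔ (Even a ↔ ¬ Ty5 n m) := by
      rw [Nat.even_add]
      simp
    rw [hpar] at hk
    rcases hx with ⟨hP, h1, h2⟩ | ⟨hP, h1, h2⟩
    · rcases hk with ⟨_, _, h3⟩ | ⟨h0, _⟩
      · omega
      · exact h0 hP
    · rcases hk with ⟨h0, _⟩ | ⟨_, _, h3⟩
      · exact hP h0
      · omega

theorem gLOW5 (hUNQ : UNQ) (hCLS : CLS) (hCE : CE) (hCO : CO) (hGS2 : GS2) (hCRD : CRD) :
    LOW5 := by
  classical
  intro D n h5
  refine ⟨A5 n, Finset.filter_subset _ _, ?_, ?_⟩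
  · intro x hx y hy z hz hxy hxz hyz hcon
    obtain ⟨⟨k, hkD, hk⟩, ⟨l, hlD, hl⟩⟩ := hcon
    have hx' := hx
    have hy' := hy
    have hz' := hz
    unfold A5 at hx' hy' hz'
    rw [Finset.mem_filter, Finset.mem_Icc] at hx' hy' hz'
    obtain ⟨a, b, m, hm, hxe, hel⟩ := hx'.2
    have hk2 : 2 ≤ k := by
      rcases Nat.lt_or_ge k 2 with h | h
      · exfalso
        have : k = 0 ∨ k = 1 := by omega
        rcases this with rfl | rfl
        · have := hy'.1.1
          rw [hk] at this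
          omega
        · apply hxy
          rw [hk]
          omega
      · exact h
    have hl2 : 2 ≤ l := by
      rcases Nat.lt_or_ge l 2 with h | h
      · exfalso
        have : l = 0 ∨ l = 1 := by omega
        rcases this with rfl | rfl
        · have := hz'.1.1
          rw [hl] at this
          omega
        · apply hxz
          rw [hl]
          omega
      · exact h
    have hk5 : k ≠ 5 := fun h => h5 (h ▸ hkD)
    have hl5 : l ≠ 5 := fun h => h5 (h ▸ hlD)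
    have hky : k * (2 ^ a * 3 ^ b * m) ∈ A5 n := by
      rw [← hxe, ← hk]
      exact hy
    have hlz : l * (2 ^ a * 3 ^ b * m) ∈ A5 n := by
      rw [← hxe, ← hl]
      exact hz
    have r1 := mult_det hUNQ hm hel hk2 hk5 hky
    have r2 := mult_det hUNQ hm hel hl2 hl5 hlz
    have hkl : k = l := by
      rcases r1 with ⟨h1, h2⟩ | ⟨h1, h2⟩
      · rcases r2 with ⟨h3, h4⟩ | ⟨h3, h4⟩
        · omega
        · exact absurd h2 h4
      · rcases r2 with ⟨h3, h4⟩ | ⟨h3, h4⟩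
        · exact absurd h4 h2
        · omega
    apply hyz
    rw [hk, hl, hkl]
  · rw [hCLS n (A5 n) (Finset.filter_subset _ _)]
    unfold F5
    apply Finset.sum_congr rfl
    intro m hm
    exact class_card hUNQ hCE hCO hGS2 hCRD hm

end Pool.Agent.Helper97.VF
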